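import Pool.Agent.Helper93.GateauxBack

/-!
# A characterisation of the separable Banach spaces with a Gateaux norm which is nowhere strongly
Gateaux differentiable
-/

open Set TopologicalSpace

namespace Pool.Agent.Results.MP_4cf087_an.Characterization

open Pool.Agent.Helper93.GateauxChar

/-- Let `X` be a separable real Banach space. Then `X ∈ 𝒞` if and only if some nonempty weak-star
compact convex set `K ⊆ X*` has no point of weak-star to weak continuity among its support
points. -/
theorem result (X : Type*) [NormedAddCommGroup X] [NormedSpace ℝ X] [CompleteSpace X]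
    [SeparableSpace X] :
    InClassC X ↔ ∃ K : Set (StrongDual ℝ X), K.Nonempty ∧ Convex ℝ K ∧ IsWeakStarCompact K ∧
      ∀ k, IsSupportPoint K k → ¬ IsWeakStarWeakPC K k :=
  ⟨forward, fun ⟨_, hne, hconv, hK, h⟩ => backward hne hconv hK h⟩

end Pool.Agent.Results.MP_4cf087_an.Characterization
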