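import Pool.Agent.Helper93.GateauxEll1

/-!
# Separable Banach spaces containing `ℓ₁` have a Gateaux norm which is nowhere strongly Gateaux
differentiable
-/

open Set TopologicalSpace

namespace Pool.Agent.Results.MP_4cf087_an.ContainsEllOne

open Pool.Agent.Helper93.GateauxChar

/-- If a separable real Banach space `X` contains an isomorphic copy of `ℓ₁`, then `X ∈ 𝒞`. -/
theorem result (X : Type*) [NormedAddCommGroup X] [NormedSpace ℝ X] [CompleteSpace X]
    [SeparableSpace X]
    (h : ∃ (T : lp (fun _ : ℕ => ℝ) 1 →L[ℝ] X) (c : ℝ), 0 < c ∧ ∀ v, c * ‖v‖ ≤ ‖T v‖) :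
    InClassC X := by
  obtain ⟨T, c, hc, hT⟩ := h
  obtain ⟨K, hne, hconv, hK, h⟩ := noPC_of_ell1 T hc hT
  exact backward hne hconv hK fun k hk => h k hk.1

end Pool.Agent.Results.MP_4cf087_an.ContainsEllOne
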