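import Pool.Agent.Helper81.Gat.Final

/-!
# A separable Banach space without `ℓ₁` with a Gateaux norm which is nowhere strongly Gateaux
differentiable
-/

open Set TopologicalSpace

namespace Pool.Agent.Results.MP_4cf087_an.EllOneFree

open Pool.Agent.Helper93.GateauxChar

/-- `X` contains an isomorphic copy of `ℓ₁`: there is a bounded linear operator from `ℓ₁` to `X`
which is bounded below. -/
def ContainsEllOne (X : Type) [NormedAddCommGroup X] [NormedSpace ℝ X] : Prop :=
  ∃ (T : lp (fun _ : ℕ => ℝ) 1 →L[ℝ] X) (c : ℝ), 0 < c ∧ ∀ v, c * ‖v‖ ≤ ‖T v‖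

/-- Some nonempty weak-star compact convex subset of `X*` has no point of weak-star to weak
continuity. -/
def HasSetWithoutPC (X : Type) [NormedAddCommGroup X] [NormedSpace ℝ X] : Prop :=
  ∃ K : Set (StrongDual ℝ X), K.Nonempty ∧ Convex ℝ K ∧ IsWeakStarCompact K ∧
    ∀ k ∈ K, ¬ IsWeakStarWeakPC K k

/-- There is a separable real Banach space `X` which does not contain an isomorphic copy of `ℓ₁`,
whose dual contains a nonempty weak-star compact convex set without any point of weak-star to weak
continuity, and which belongs to the class `𝒞`. -/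
theorem result : ∃ (X : Type) (_ : NormedAddCommGroup X) (_ : NormedSpace ℝ X),
    CompleteSpace X ∧ SeparableSpace X ∧ ¬ ContainsEllOne X ∧ HasSetWithoutPC X ∧ InClassC X :=
  ⟨Pool.Agent.Helper81.Gat.Sp.XX, inferInstance, inferInstance, inferInstance, inferInstance,
    Pool.Agent.Helper81.Gat.Sp.no_ell1,
    ⟨Pool.Agent.Helper81.Gat.Sp.KS, Pool.Agent.Helper81.Gat.Sp.nonempty_KS,
      Pool.Agent.Helper81.Gat.Sp.convex_KS, Pool.Agent.Helper81.Gat.Sp.compact_KS,
      fun _ hk => Pool.Agent.Helper81.Gat.Sp.noPC hk⟩,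
    Pool.Agent.Helper81.Gat.Sp.inClassC⟩

end Pool.Agent.Results.MP_4cf087_an.EllOneFree
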